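import Mathlib

set_option autoImplicit false

/-!
Arithmetic input for the negative answer to Haight's question: finite multiplicative sets of
rationals that are almost invariant under division by the integers below `Z`, and blocks `[Z, 2Z)`
with many primes.
-/

namespace Pool.Agent.H11R3.Haight

open Finset

/-- the primes in `[Z, 2Z)` -/
def primesIn (Z : ℕ) : Finset ℕ := (Finset.Ico Z (2 * Z)).filter Nat.Prime

lemma sum_prime_recip_le {K : ℕ} (h : ∀ Z : ℕ, 1 ≤ Z → (primesIn Z).card ≤ K) (J : ℕ) :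
    ∑ i ∈ Finset.range (2 ^ J), (Set.indicator {p : ℕ | p.Prime} (fun n : ℕ => (1 : ℝ) / n) i)
      ≤ 2 * K * (1 - 1 / 2 ^ J) := by
  induction J with
  | zero =>
      simp [Set.indicator, Nat.not_prime_zero]
  | succ J ih =>
      have hle : 2 ^ J ≤ 2 ^ (J + 1) := Nat.pow_le_pow_right (by norm_num) (Nat.le_succ _)
      rw [← Finset.sum_range_add_sum_Ico _ hle]
      have h1 : ∑ i ∈ Finset.Ico (2 ^ J) (2 ^ (J + 1)),
          (Set.indicator {p : ℕ | p.Prime} (fun n : ℕ => (1 : ℝ) / n) i) ≤ K * (1 / 2 ^ J) := by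
        have h2 : ∑ i ∈ Finset.Ico (2 ^ J) (2 ^ (J + 1)),
            (Set.indicator {p : ℕ | p.Prime} (fun n : ℕ => (1 : ℝ) / n) i)
            = ∑ i ∈ primesIn (2 ^ J), (1 : ℝ) / i := by
          unfold primesIn
          rw [Finset.sum_filter]
          have e : 2 * 2 ^ J = 2 ^ (J + 1) := by rw [pow_succ]; ring
          rw [e]
          refine Finset.sum_congr rfl fun i _ => ?_
          simp [Set.indicator]
        rw [h2]
        calc ∑ i ∈ primesIn (2 ^ J), (1 : ℝ) / i ≤ ∑ _i ∈ primesIn (2 ^ J), (1 : ℝ) / 2 ^ J := by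
              refine Finset.sum_le_sum fun i hi => ?_
              have hi' : 2 ^ J ≤ i := (Finset.mem_Ico.1 (Finset.mem_filter.1 hi).1).1
              have : (2 : ℝ) ^ J ≤ i := by exact_mod_cast hi'
              exact one_div_le_one_div_of_le (by positivity) this
          _ = (primesIn (2 ^ J)).card * (1 / 2 ^ J) := by
              rw [Finset.sum_const, nsmul_eq_mul]
          _ ≤ K * (1 / 2 ^ J) := by
              have : ((primesIn (2 ^ J)).card : ℝ) ≤ K := by
                exact_mod_cast h (2 ^ J) Nat.one_le_two_pow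
              exact mul_le_mul_of_nonneg_right this (by positivity)
      have h3 : (1 : ℝ) / 2 ^ (J + 1) = (1 / 2 ^ J) / 2 := by
        rw [pow_succ]; field_simp
      rw [h3]
      linarith

lemma exists_primesIn (K N : ℕ) : ∃ Z : ℕ, N ≤ Z ∧ 1 ≤ Z ∧ K ≤ (primesIn Z).card := by
  by_contra hcon
  push Not at hcon
  have h : ∀ Z : ℕ, 1 ≤ Z → (primesIn Z).card ≤ K + N := by
    intro Z hZ
    rcases le_or_gt N Z with h1 | h1
    · have := hcon Z h1 hZ
      omega
    · have h2 : (primesIn Z).card ≤ (Finset.Ico Z (2 * Z)).card := Finset.card_filter_le _ _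
      rw [Nat.card_Ico] at h2
      omega
  apply not_summable_one_div_on_primes
  refine summable_of_sum_range_le (c := 2 * ((K + N : ℕ) : ℝ)) ?_ ?_
  · intro n
    exact Set.indicator_nonneg (fun p _ => by positivity) _
  · intro n
    have h1 : n ≤ 2 ^ n := Nat.lt_two_pow_self.le
    calc ∑ i ∈ Finset.range n, (Set.indicator {p : ℕ | p.Prime} (fun n : ℕ => (1 : ℝ) / n) i)
        ≤ ∑ i ∈ Finset.range (2 ^ n),
            (Set.indicator {p : ℕ | p.Prime} (fun n : ℕ => (1 : ℝ) / n) i) := by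
          refine Finset.sum_le_sum_of_subset_of_nonneg (Finset.range_subset_range.2 h1) ?_
          intro i _ _
          exact Set.indicator_nonneg (fun p _ => by positivity) _
      _ ≤ 2 * ((K + N : ℕ) : ℝ) * (1 - 1 / 2 ^ n) := sum_prime_recip_le h n
      _ ≤ 2 * ((K + N : ℕ) : ℝ) := by
          have : (0 : ℝ) ≤ 1 / 2 ^ n := by positivity
          have h0 : (0 : ℝ) ≤ 2 * ((K + N : ℕ) : ℝ) := by positivity
          nlinarith

/-- the number of divisors of `D ^ M` grows polynomially in `M` -/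
lemma card_divisors_pow_le (D : ℕ) (hD : D ≠ 0) (M : ℕ) :
    (D ^ M).divisors.card ≤ (∏ p ∈ D.primeFactors, (D.factorization p + 1)) *
      (M + 1) ^ D.primeFactors.card := by
  rw [Nat.card_divisors (pow_ne_zero M hD)]
  rcases Nat.eq_zero_or_pos M with rfl | hM
  · simp
    exact Finset.prod_pos fun p _ => Nat.succ_pos _
  · rw [Nat.primeFactors_pow D hM.ne', ← Finset.prod_const, ← Finset.prod_mul_distrib]
    refine Finset.prod_le_prod' fun p _ => ?_
    rw [Nat.factorization_pow]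
    simp only [Finsupp.smul_apply, smul_eq_mul]
    nlinarith [Nat.zero_le (D.factorization p), Nat.zero_le M]

lemma exists_almost_invariant (D : ℕ) (hD : D ≠ 0) :
    ∃ M : ℕ, (D ^ (M + 1)).divisors.card ≤ 2 * (D ^ M).divisors.card := by
  by_contra hcon
  push Not at hcon
  have h : ∀ M : ℕ, 2 ^ M ≤ (D ^ M).divisors.card := by
    intro M
    induction M with
    | zero => simp
    | succ M ih =>
        have := hcon M
        rw [pow_succ]
        omega
  set C : ℕ := ∏ p ∈ D.primeFactors, (D.factorization p + 1) with hC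
  set k : ℕ := D.primeFactors.card with hk
  have h2 : ∀ M : ℕ, (2 : ℝ) ^ M ≤ C * ((M : ℝ) + 1) ^ k := by
    intro M
    have := (h M).trans (card_divisors_pow_le D hD M)
    exact_mod_cast this
  have ht := tendsto_pow_const_div_const_pow_of_one_lt k (r := (2 : ℝ)) (by norm_num)
  have ht2 : Filter.Tendsto (fun n : ℕ => ((n + 1 : ℕ) : ℝ) ^ k / 2 ^ (n + 1)) Filter.atTop
      (nhds 0) := (Filter.tendsto_add_atTop_iff_nat 1).2 ht
  have hC0 : 0 < C := Finset.prod_pos fun p _ => Nat.succ_pos _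
  have hC1 : (0 : ℝ) < C := by exact_mod_cast hC0
  have hev := ht2.eventually_lt_const (show (0 : ℝ) < 1 / (2 * C) by positivity)
  obtain ⟨M, hM⟩ := hev.exists
  have h3 := h2 M
  rw [div_lt_div_iff₀ (by positivity) (by positivity)] at hM
  push_cast at hM
  rw [pow_succ] at hM
  nlinarith

/-- Double counting over dyadic windows. -/
lemma exists_window (B B' : Finset ℝ) (hB : B.Nonempty) (hBpos : ∀ b ∈ B, 0 < b)
    (hBpos' : ∀ b ∈ B', 0 < b) (hcard : B'.card ≤ 2 * B.card) (ζ : ℝ) (hζ : 0 < ζ) :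
    ∃ s : ℝ, 0 < s ∧ (B.filter (fun b => ζ / 2 * s ≤ b ∧ b < ζ * s)).Nonempty ∧
      (B'.filter (fun b => s < b ∧ b < 32 * s)).card ≤
        10 * (B.filter (fun b => ζ / 2 * s ≤ b ∧ b < ζ * s)).card := by
  classical
  -- the window index of `b`
  set φ : ℝ → ℤ := fun b => Int.log 2 (b / ζ) + 1 with hφ
  have hφ1 : ∀ b, 0 < b → ζ / 2 * (2 : ℝ) ^ (φ b) ≤ b ∧ b < ζ * (2 : ℝ) ^ (φ b) := by
    intro b hb
    have hb' : 0 < b / ζ := div_pos hb hζ
    have h1 : ((2 : ℕ) : ℝ) ^ (Int.log 2 (b / ζ)) ≤ b / ζ :=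
      (Int.zpow_le_iff_le_log (R := ℝ) (by norm_num) hb').2 le_rfl
    have h2 : b / ζ < ((2 : ℕ) : ℝ) ^ (Int.log 2 (b / ζ) + 1) :=
      (Int.lt_zpow_iff_log_lt (R := ℝ) (by norm_num) hb').2 (by omega)
    have e : (2 : ℝ) ^ (φ b) = 2 * (2 : ℝ) ^ (Int.log 2 (b / ζ)) := by
      rw [hφ, zpow_add_one₀ (by norm_num)]; ring
    push_cast at h1 h2
    constructor
    · rw [e]
      rw [le_div_iff₀ hζ] at h1
      linarith
    · rw [div_lt_iff₀ hζ] at h2
      change b < ζ * (2 : ℝ) ^ (Int.log 2 (b / ζ) + 1)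
      linarith
  have hφ2 : ∀ b, 0 < b → ∀ j : ℤ, ζ / 2 * (2 : ℝ) ^ j ≤ b → b < ζ * (2 : ℝ) ^ j → φ b = j := by
    intro b hb j h1 h2
    have hb' : 0 < b / ζ := div_pos hb hζ
    have e : (2 : ℝ) ^ j = 2 * (2 : ℝ) ^ (j - 1) := by
      rw [zpow_sub_one₀ (by norm_num)]; field_simp
    have h3 : j - 1 ≤ Int.log 2 (b / ζ) := by
      rw [← Int.zpow_le_iff_le_log (R := ℝ) (by norm_num) hb']
      push_cast
      rw [le_div_iff₀ hζ]
      rw [e] at h1
      linarith
    have h4 : Int.log 2 (b / ζ) < j := by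
      rw [← Int.lt_zpow_iff_log_lt (R := ℝ) (by norm_num) hb']
      push_cast
      rw [div_lt_iff₀ hζ]
      linarith
    simp only [hφ]
    omega
  by_contra hcon
  push Not at hcon
  set J : Finset ℤ := B.image φ with hJ
  -- lower bound
  have hlow : ∀ j ∈ J, 10 * (B.filter (fun b => φ b = j)).card <
      (B'.filter (fun b => (2 : ℝ) ^ j < b ∧ b < 32 * (2 : ℝ) ^ j)).card := by
    intro j hj
    obtain ⟨b, hb, hbj⟩ := Finset.mem_image.1 hj
    have hs : (0 : ℝ) < (2 : ℝ) ^ j := by positivity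
    have hfe : B.filter (fun b => ζ / 2 * (2 : ℝ) ^ j ≤ b ∧ b < ζ * (2 : ℝ) ^ j) =
        B.filter (fun b => φ b = j) := by
      apply Finset.filter_congr
      intro b hb
      constructor
      · rintro ⟨h1, h2⟩
        exact hφ2 b (hBpos b hb) j h1 h2
      · intro h
        have := hφ1 b (hBpos b hb)
        rwa [h] at this
    have hne : (B.filter (fun b => ζ / 2 * (2 : ℝ) ^ j ≤ b ∧ b < ζ * (2 : ℝ) ^ j)).Nonempty := by
      rw [hfe]
      exact ⟨b, Finset.mem_filter.2 ⟨hb, hbj⟩⟩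
    have := hcon _ hs hne
    rwa [hfe] at this
  have hsum1 : ∑ j ∈ J, 10 * (B.filter (fun b => φ b = j)).card = 10 * B.card := by
    rw [← Finset.mul_sum, ← Finset.card_eq_sum_card_image]
  have hJne : J.Nonempty := hB.image φ
  have hsum2 : ∑ j ∈ J, 10 * (B.filter (fun b => φ b = j)).card <
      ∑ j ∈ J, (B'.filter (fun b => (2 : ℝ) ^ j < b ∧ b < 32 * (2 : ℝ) ^ j)).card :=
    Finset.sum_lt_sum_of_nonempty hJne hlow
  have hsum3 : ∑ j ∈ J, (B'.filter (fun b => (2 : ℝ) ^ j < b ∧ b < 32 * (2 : ℝ) ^ j)).card ≤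
      5 * B'.card := by
    have e1 : ∑ j ∈ J, (B'.filter (fun b => (2 : ℝ) ^ j < b ∧ b < 32 * (2 : ℝ) ^ j)).card =
        ∑ b ∈ B', (J.filter (fun j => (2 : ℝ) ^ j < b ∧ b < 32 * (2 : ℝ) ^ j)).card := by
      simp only [Finset.card_filter]
      exact Finset.sum_comm
    rw [e1]
    have e2 : ∀ b ∈ B', (J.filter (fun j => (2 : ℝ) ^ j < b ∧ b < 32 * (2 : ℝ) ^ j)).card ≤ 5 := by
      intro b hb
      have hb0 := hBpos' b hb
      have hsub : J.filter (fun j => (2 : ℝ) ^ j < b ∧ b < 32 * (2 : ℝ) ^ j) ⊆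
          Finset.Icc (Int.log 2 b - 4) (Int.log 2 b) := by
        intro j hj
        obtain ⟨-, h1, h2⟩ := Finset.mem_filter.1 hj
        rw [Finset.mem_Icc]
        constructor
        · have h3 : b < ((2 : ℕ) : ℝ) ^ (j + 5) := by
            push_cast
            rw [zpow_add₀ (by norm_num)]
            norm_num
            linarith
          have := (Int.lt_zpow_iff_log_lt (R := ℝ) (by norm_num) hb0).1 h3
          omega
        · refine (Int.zpow_le_iff_le_log (R := ℝ) (by norm_num) hb0).1 ?_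
          push_cast
          exact h1.le
      refine (Finset.card_le_card hsub).trans ?_
      rw [Int.card_Icc]
      omega
    calc ∑ b ∈ B', (J.filter (fun j => (2 : ℝ) ^ j < b ∧ b < 32 * (2 : ℝ) ^ j)).card
        ≤ ∑ _b ∈ B', 5 := Finset.sum_le_sum e2
      _ = 5 * B'.card := by rw [Finset.sum_const, smul_eq_mul, mul_comm]
  omega

/-- The arithmetic core: a finite set `A` of positive reals in `[Z/2, Z)` such that all quotients
`a / r` in `(1, 32)` with `1 ≤ r < Z` lie in a set `T` with at most `10 |A|` elements, while the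
quotients `a / p`, `p` a prime in `[Z, 2Z)`, are pairwise different. -/
lemma exists_core (K N : ℕ) : ∃ (Z : ℕ) (A T : Finset ℝ), N ≤ Z ∧ 1 ≤ Z ∧
    K ≤ (primesIn Z).card ∧ A.Nonempty ∧ (∀ a ∈ A, (Z : ℝ) / 2 ≤ a ∧ a < Z) ∧
    T.card ≤ 10 * A.card ∧
    (∀ a ∈ A, ∀ r : ℕ, 1 ≤ r → r < Z → 1 < a / r → a / r < 32 → a / r ∈ T) ∧
    (∀ a ∈ A, ∀ a' ∈ A, ∀ p ∈ primesIn Z, ∀ p' ∈ primesIn Z, a / (p : ℝ) = a' / (p' : ℝ) →
      a = a' ∧ p = p') := by
  classical
  obtain ⟨Z, hNZ, hZ1, hK⟩ := exists_primesIn K N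
  set D : ℕ := (Z - 1).factorial with hD
  have hD0 : D ≠ 0 := Nat.factorial_ne_zero _
  have hDr : (D : ℝ) ≠ 0 := by exact_mod_cast hD0
  have hDpos : (0 : ℝ) < D := by exact_mod_cast Nat.pos_of_ne_zero hD0
  obtain ⟨M, hM⟩ := exists_almost_invariant D hD0
  set B : Finset ℝ := (D ^ M).divisors.image (fun n : ℕ => (n : ℝ)) with hBdef
  set B' : Finset ℝ := (D ^ (M + 1)).divisors.image (fun n : ℕ => (n : ℝ) / D) with hBdef'
  have hBc : B.card = (D ^ M).divisors.card :=
    Finset.card_image_of_injective _ Nat.cast_injective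
  have hBc' : B'.card ≤ (D ^ (M + 1)).divisors.card := Finset.card_image_le
  have hBne : B.Nonempty := by
    refine ⟨1, Finset.mem_image.2 ⟨1, ?_, by norm_num⟩⟩
    simp [hD0]
  have hBpos : ∀ b ∈ B, 0 < b := by
    intro b hb
    obtain ⟨n, hn, rfl⟩ := Finset.mem_image.1 hb
    exact_mod_cast Nat.pos_of_mem_divisors hn
  have hBpos' : ∀ b ∈ B', 0 < b := by
    intro b hb
    obtain ⟨n, hn, rfl⟩ := Finset.mem_image.1 hb
    have : (0 : ℝ) < n := by exact_mod_cast Nat.pos_of_mem_divisors hn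
    positivity
  have hZpos : (0 : ℝ) < Z := by exact_mod_cast hZ1
  obtain ⟨s, hs, hne, hcard⟩ := exists_window B B' hBne hBpos hBpos' (by omega) (Z : ℝ) hZpos
  set A0 := B.filter (fun b => (Z : ℝ) / 2 * s ≤ b ∧ b < Z * s) with hA0
  have hinj : Function.Injective (fun b : ℝ => b / s) := fun x y h => by
    have : x / s = y / s := h
    field_simp at this
    exact this
  refine ⟨Z, A0.image (fun b => b / s), (B'.filter (fun b => s < b ∧ b < 32 * s)).image
    (fun b => b / s), hNZ, hZ1, hK, hne.image _, ?_, ?_, ?_, ?_⟩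
  · intro a ha
    obtain ⟨b, hb, rfl⟩ := Finset.mem_image.1 ha
    obtain ⟨-, h1, h2⟩ := Finset.mem_filter.1 hb
    constructor
    · rw [le_div_iff₀ hs]; exact h1
    · rw [div_lt_iff₀ hs]; exact h2
  · rw [Finset.card_image_of_injective _ hinj, Finset.card_image_of_injective _ hinj]
    exact hcard
  · intro a ha r hr1 hrZ h1 h2
    obtain ⟨b, hb, rfl⟩ := Finset.mem_image.1 ha
    obtain ⟨hbB, -, -⟩ := Finset.mem_filter.1 hb
    obtain ⟨n, hn, rfl⟩ := Finset.mem_image.1 hbB
    have hr0 : (0 : ℝ) < r := by exact_mod_cast hr1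
    have hrD : r ∣ D := Nat.dvd_factorial hr1 (by omega)
    obtain ⟨e, he⟩ := hrD
    have hDe : (D : ℝ) = r * e := by rw [he]; push_cast; ring
    have he0 : (e : ℝ) ≠ 0 := by
      intro h
      rw [h, mul_zero] at hDe
      exact hDr hDe
    have hval : (n : ℝ) / r = ((n * e : ℕ) : ℝ) / D := by
      rw [hDe]
      push_cast
      field_simp
    refine Finset.mem_image.2 ⟨(n : ℝ) / r, Finset.mem_filter.2 ⟨?_, ?_, ?_⟩, ?_⟩
    · rw [hval]
      refine Finset.mem_image.2 ⟨n * e, ?_, rfl⟩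
      rw [Nat.mem_divisors] at hn ⊢
      refine ⟨?_, pow_ne_zero _ hD0⟩
      rw [pow_succ]
      exact Nat.mul_dvd_mul hn.1 ⟨r, by rw [he]; ring⟩
    · have : (n : ℝ) / s / r = (n : ℝ) / r / s := by field_simp
      change 1 < (n : ℝ) / s / r at h1
      rw [this, lt_div_iff₀ hs] at h1
      linarith
    · have : (n : ℝ) / s / r = (n : ℝ) / r / s := by field_simp
      change (n : ℝ) / s / r < 32 at h2
      rw [this, div_lt_iff₀ hs] at h2
      exact h2
    · field_simp
  · intro a ha a' ha' p hp p' hp' h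
    obtain ⟨b, hb, rfl⟩ := Finset.mem_image.1 ha
    obtain ⟨b', hb', rfl⟩ := Finset.mem_image.1 ha'
    obtain ⟨n, hn, rfl⟩ := Finset.mem_image.1 (Finset.mem_filter.1 hb).1
    obtain ⟨n', hn', rfl⟩ := Finset.mem_image.1 (Finset.mem_filter.1 hb').1
    have hpp : p.Prime := (Finset.mem_filter.1 hp).2
    have hpp' : p'.Prime := (Finset.mem_filter.1 hp').2
    have hpZ : Z ≤ p := (Finset.mem_Ico.1 (Finset.mem_filter.1 hp).1).1
    have hpZ' : Z ≤ p' := (Finset.mem_Ico.1 (Finset.mem_filter.1 hp').1).1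
    have hp0 : (0 : ℝ) < p := by exact_mod_cast hpp.pos
    have hp0' : (0 : ℝ) < p' := by exact_mod_cast hpp'.pos
    have h1 : (n : ℝ) * p' = n' * p := by
      change (n : ℝ) / s / p = n' / s / p' at h
      field_simp at h
      linarith
    have h2 : n * p' = n' * p := by exact_mod_cast h1
    have hcop : ∀ q : ℕ, q.Prime → Z ≤ q → ∀ m : ℕ, m ∈ (D ^ M).divisors → ¬ q ∣ m := by
      intro q hq hqZ m hm hqm
      have h3 : q ∣ D ^ M := hqm.trans (Nat.mem_divisors.1 hm).1
      have h4 : q ∣ D := hq.dvd_of_dvd_pow h3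
      have h5 : q ≤ Z - 1 := (hq.dvd_factorial).1 h4
      omega
    have hpd : p ∣ n * p' := ⟨n', by rw [h2]; ring⟩
    have hpeq : p = p' := by
      rcases (hpp.dvd_mul).1 hpd with h3 | h3
      · exact absurd h3 (hcop p hpp hpZ n hn)
      · exact (Nat.prime_dvd_prime_iff_eq hpp hpp').1 h3
    refine ⟨?_, hpeq⟩
    subst hpeq
    have : n = n' := Nat.eq_of_mul_eq_mul_right hpp.pos h2
    rw [this]

end Pool.Agent.H11R3.Haight
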