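import Mathlib

set_option autoImplicit false

/-!
Measure theoretic input for the negative answer to Haight's question: greedy covering of `[1, 2)`
by dilates of a finite union of short intervals.
-/

namespace Pool.Agent.H11R3.Haight

open MeasureTheory Set
open scoped ENNReal

/-- the union of the intervals `[θ q, θ q (1 + δ))`, `q ∈ Q` -/
def SS (Q : Finset ℝ) (δ θ : ℝ) : Set ℝ := ⋃ q ∈ Q, Ico (θ * q) (θ * q * (1 + δ))

lemma measurableSet_SS (Q : Finset ℝ) (δ θ : ℝ) : MeasurableSet (SS Q δ θ) :=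
  Finset.measurableSet_biUnion _ fun _ _ => measurableSet_Ico

lemma measurable_T (q δ : ℝ) :
    MeasurableSet {z : ℝ × ℝ | z.1 * q ≤ z.2 ∧ z.2 < z.1 * q * (1 + δ)} := by
  have h1 : MeasurableSet {z : ℝ × ℝ | z.1 * q ≤ z.2} :=
    measurableSet_le (measurable_fst.mul_const q) measurable_snd
  have h2 : MeasurableSet {z : ℝ × ℝ | z.2 < z.1 * q * (1 + δ)} :=
    measurableSet_lt measurable_snd ((measurable_fst.mul_const q).mul_const (1 + δ))
  exact h1.inter h2

lemma single (R : Set ℝ) (hR : MeasurableSet R) (hR1 : R ⊆ Ico 1 2) (q δ : ℝ) (hδ : 0 < δ)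
    (hδ1 : δ ≤ 1) (hq : 1 / 4 < q) (hq1 : q * (1 + δ) ≤ 1) :
    ENNReal.ofReal (δ / 2) * volume R ≤
      ∫⁻ θ in Ico (1 : ℝ) 8, volume (R ∩ Ico (θ * q) (θ * q * (1 + δ))) := by
  have hq0 : 0 < q := by linarith
  set T : Set (ℝ × ℝ) := {z | z.1 * q ≤ z.2 ∧ z.2 < z.1 * q * (1 + δ)} with hT
  have hTm : MeasurableSet T := measurable_T q δ
  have e1 : ((volume.restrict (Ico (1 : ℝ) 8)).prod (volume.restrict R)) T =
      ∫⁻ θ in Ico (1 : ℝ) 8, volume (R ∩ Ico (θ * q) (θ * q * (1 + δ))) := by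
    rw [Measure.prod_apply hTm]
    refine lintegral_congr fun θ => ?_
    rw [Measure.restrict_apply (measurable_prodMk_left hTm)]
    congr 1
    ext x
    simp [hT, and_comm]
  have e2 : ((volume.restrict (Ico (1 : ℝ) 8)).prod (volume.restrict R)) T =
      ∫⁻ x in R, (volume.restrict (Ico (1 : ℝ) 8)) ((fun θ => (θ, x)) ⁻¹' T) :=
    Measure.prod_apply_symm hTm
  rw [← e1, e2]
  have e3 : ENNReal.ofReal (δ / 2) * volume R = ∫⁻ _x in R, ENNReal.ofReal (δ / 2) := by
    rw [setLIntegral_const]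
  rw [e3]
  refine setLIntegral_mono' hR fun x hx => ?_
  obtain ⟨hx1, hx2⟩ := hR1 hx
  rw [Measure.restrict_apply (measurable_prodMk_right hTm)]
  have hsub : Ioc (x / (q * (1 + δ))) (x / q) ⊆ ((fun θ => (θ, x)) ⁻¹' T) ∩ Ico 1 8 := by
    rintro θ ⟨h1, h2⟩
    have hqd : 0 < q * (1 + δ) := by positivity
    rw [div_lt_iff₀ hqd] at h1
    rw [le_div_iff₀ hq0] at h2
    have hθ0 : 0 < θ := by
      by_contra hc
      push Not at hc
      nlinarith
    refine ⟨⟨h2, ?_⟩, ?_, ?_⟩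
    · change x < θ * q * (1 + δ)
      linarith
    · have : θ * (q * (1 + δ)) ≤ θ * 1 := mul_le_mul_of_nonneg_left hq1 hθ0.le
      linarith
    · by_contra hc
      push Not at hc
      nlinarith
  refine le_trans ?_ (measure_mono hsub)
  rw [Real.volume_Ioc]
  apply ENNReal.ofReal_le_ofReal
  have e4 : x / q - x / (q * (1 + δ)) = (x / q) * (δ / (1 + δ)) := by
    field_simp
    ring
  rw [e4]
  have hq2 : q ≤ 1 := by nlinarith
  have h5 : 1 ≤ x / q := by
    rw [le_div_iff₀ hq0]; linarith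
  have h6 : δ / 2 ≤ δ / (1 + δ) := by
    apply div_le_div_of_nonneg_left hδ.le (by positivity) (by linarith)
  have h7 : 0 < δ / (1 + δ) := by positivity
  nlinarith

lemma one_step (Q : Finset ℝ) (δ : ℝ) (hδ : 0 < δ) (hδ1 : δ ≤ 1) (hQ : ∀ q ∈ Q, 1 / 4 < q)
    (hQ1 : ∀ q ∈ Q, q * (1 + δ) ≤ 1) (hsep : ∀ q ∈ Q, ∀ q' ∈ Q, q < q' → q * (1 + δ) ≤ q')
    (R : Set ℝ) (hR : MeasurableSet R) (hR1 : R ⊆ Ico 1 2) :
    ∃ θ ∈ Ico (1 : ℝ) 8, (Q.card * δ / 14) * volume.real R ≤ volume.real (R ∩ SS Q δ θ) := by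
  have hRfin : volume R ≠ ∞ :=
    ne_top_of_le_ne_top (by rw [Real.volume_Ico]; exact ENNReal.ofReal_ne_top)
      (measure_mono hR1)
  have hsplit : ∀ θ ∈ Ico (1 : ℝ) 8, volume (R ∩ SS Q δ θ) =
      ∑ q ∈ Q, volume (R ∩ Ico (θ * q) (θ * q * (1 + δ))) := by
    intro θ hθ
    unfold SS
    rw [Set.inter_iUnion₂, measure_biUnion_finset]
    · intro q hq q' hq' hne
      have key : ∀ a ∈ Q, ∀ b ∈ Q, a < b → Disjoint (R ∩ Ico (θ * a) (θ * a * (1 + δ)))
          (R ∩ Ico (θ * b) (θ * b * (1 + δ))) := by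
        intro a ha b hb hab
        rw [Set.disjoint_left]
        rintro x ⟨-, -, h1⟩ ⟨-, h2, -⟩
        have h3 := hsep a ha b hb hab
        have h4 : θ * (a * (1 + δ)) ≤ θ * b :=
          mul_le_mul_of_nonneg_left h3 (by linarith [hθ.1])
        linarith
      rcases lt_or_gt_of_ne hne with h | h
      · exact key q hq q' hq' h
      · exact (key q' hq' q hq h).symm
    · intro q _
      exact hR.inter measurableSet_Ico
  have hint : ENNReal.ofReal (Q.card * (δ / 2)) * volume R ≤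
      ∫⁻ θ in Ico (1 : ℝ) 8, volume (R ∩ SS Q δ θ) := by
    have e1 : ∫⁻ θ in Ico (1 : ℝ) 8, volume (R ∩ SS Q δ θ) =
        ∫⁻ θ in Ico (1 : ℝ) 8, ∑ q ∈ Q, volume (R ∩ Ico (θ * q) (θ * q * (1 + δ))) :=
      setLIntegral_congr_fun measurableSet_Ico hsplit
    have hmeas : ∀ q : ℝ, Measurable fun θ : ℝ =>
        volume (R ∩ Ico (θ * q) (θ * q * (1 + δ))) := by
      intro q
      have hTm := measurable_T q δ
      have := measurable_measure_prodMk_left (ν := volume.restrict R) hTm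
      convert! this using 2 with θ
      rw [Measure.restrict_apply (measurable_prodMk_left hTm)]
      congr 1
      ext x
      simp [and_comm]
    rw [e1, lintegral_finsetSum _ (fun q _ => hmeas q)]
    calc ENNReal.ofReal (Q.card * (δ / 2)) * volume R
        = ∑ _q ∈ Q, ENNReal.ofReal (δ / 2) * volume R := by
          rw [Finset.sum_const, nsmul_eq_mul, ENNReal.ofReal_mul (by positivity),
            ENNReal.ofReal_natCast, mul_assoc]
      _ ≤ _ := Finset.sum_le_sum fun q hq =>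
          single R hR hR1 q δ hδ hδ1 (hQ q hq) (hQ1 q hq)
  by_contra hcon
  push Not at hcon
  -- all values are smaller than the average
  have hub : ∀ θ ∈ Ico (1 : ℝ) 8, volume (R ∩ SS Q δ θ) <
      ENNReal.ofReal ((Q.card * δ / 14) * volume.real R) := by
    intro θ hθ
    have h1 := hcon θ hθ
    have h2 : volume (R ∩ SS Q δ θ) ≠ ∞ :=
      ne_top_of_le_ne_top hRfin (measure_mono inter_subset_left)
    rw [← ENNReal.ofReal_toReal h2]
    have h3 : 0 < (Q.card * δ / 14) * volume.real R :=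
      lt_of_le_of_lt measureReal_nonneg h1
    exact (ENNReal.ofReal_lt_ofReal_iff h3).2 h1
  have hpos : 0 < (Q.card * δ / 14) * volume.real R :=
    lt_of_le_of_lt measureReal_nonneg (hcon 1 ⟨le_rfl, by norm_num⟩)
  have hlt : ∫⁻ θ in Ico (1 : ℝ) 8, volume (R ∩ SS Q δ θ) <
      ENNReal.ofReal ((Q.card * δ / 14) * volume.real R) * volume (Ico (1 : ℝ) 8) := by
    rw [← setLIntegral_const]
    refine setLIntegral_strict_mono measurableSet_Ico ?_ measurable_const ?_ ?_
    · rw [Real.volume_Ico]; norm_num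
    · refine ne_top_of_le_ne_top ?_ (setLIntegral_mono' (g := fun _ => volume R)
        measurableSet_Ico fun θ _ => measure_mono inter_subset_left)
      rw [setLIntegral_const, Real.volume_Ico]
      exact ENNReal.mul_ne_top hRfin ENNReal.ofReal_ne_top
    · exact Filter.Eventually.of_forall fun θ hθ => hub θ hθ
  have hfin := hint.trans_lt hlt
  rw [Real.volume_Ico, ← ENNReal.ofReal_mul hpos.le] at hfin
  have e5 : volume R = ENNReal.ofReal (volume.real R) := (ENNReal.ofReal_toReal hRfin).symm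
  rw [e5, ← ENNReal.ofReal_mul (by positivity)] at hfin
  have h8 := (ENNReal.ofReal_lt_ofReal_iff (by positivity)).1 hfin
  norm_num at h8
  nlinarith [h8]

/-- Greedy covering of `[1, 2)`. -/
lemma greedy (Q : Finset ℝ) (δ : ℝ) (hδ : 0 < δ) (hδ1 : δ ≤ 1) (hQ : ∀ q ∈ Q, 1 / 4 < q)
    (hQ1 : ∀ q ∈ Q, q * (1 + δ) ≤ 1) (hsep : ∀ q ∈ Q, ∀ q' ∈ Q, q < q' → q * (1 + δ) ≤ q')
    (hf : Q.card * δ / 14 ≤ 1) (n : ℕ) :
    ∃ Θ : Finset ℝ, Θ.card ≤ n ∧ (∀ θ ∈ Θ, θ ∈ Ico (1 : ℝ) 8) ∧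
      volume.real (Ico (1 : ℝ) 2 \ ⋃ θ ∈ Θ, SS Q δ θ) ≤ (1 - Q.card * δ / 14) ^ n := by
  classical
  induction n with
  | zero =>
      refine ⟨∅, le_rfl, by simp, ?_⟩
      simp
      norm_num
  | succ n ih =>
      obtain ⟨Θ, hc, hΘ, hv⟩ := ih
      set R : Set ℝ := Ico (1 : ℝ) 2 \ ⋃ θ ∈ Θ, SS Q δ θ with hRdef
      have hRm : MeasurableSet R := measurableSet_Ico.diff
        (Finset.measurableSet_biUnion _ fun θ _ => measurableSet_SS Q δ θ)
      obtain ⟨θ, hθ, hle⟩ := one_step Q δ hδ hδ1 hQ hQ1 hsep R hRm sdiff_subset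
      refine ⟨insert θ Θ, ?_, ?_, ?_⟩
      · exact (Finset.card_insert_le _ _).trans (by omega)
      · intro t ht
        rcases Finset.mem_insert.1 ht with rfl | ht
        · exact hθ
        · exact hΘ t ht
      · have e : (Ico (1 : ℝ) 2 \ ⋃ t ∈ insert θ Θ, SS Q δ t) = R \ SS Q δ θ := by
          rw [Finset.set_biUnion_insert, Set.union_comm, ← Set.sdiff_sdiff]
        have hRfin : volume R ≠ ∞ :=
          ne_top_of_le_ne_top (by rw [Real.volume_Ico]; exact ENNReal.ofReal_ne_top)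
            (measure_mono (sdiff_subset : R ⊆ Ico 1 2))
        have h1 : volume.real (R ∩ SS Q δ θ) + volume.real (R \ SS Q δ θ) = volume.real R :=
          measureReal_inter_add_sdiff (measurableSet_SS Q δ θ) hRfin
        rw [e, pow_succ]
        have h2 : volume.real (R \ SS Q δ θ) ≤ (1 - Q.card * δ / 14) * volume.real R := by
          linarith
        have h3 : 0 ≤ 1 - Q.card * δ / 14 := by linarith
        calc volume.real (R \ SS Q δ θ) ≤ (1 - Q.card * δ / 14) * volume.real R := h2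
          _ ≤ (1 - Q.card * δ / 14) * (1 - Q.card * δ / 14) ^ n :=
              mul_le_mul_of_nonneg_left hv h3
          _ = _ := by ring

end Pool.Agent.H11R3.Haight
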