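import Mathlib
import Pool.Agent.H11R3.Haight.Arith
import Pool.Agent.H11R3.Haight.Cover

set_option autoImplicit false

/-!
One stage of the construction for the negative answer to Haight's question.
-/

namespace Pool.Agent.H11R3.Haight

open MeasureTheory Set Filter
open scoped ENNReal Topology

lemma exists_delta (Q : Finset ℝ) (hQ1 : ∀ q ∈ Q, q < 1) :
    ∃ δ : ℝ, 0 < δ ∧ δ ≤ 1 ∧ (∀ q ∈ Q, q * (1 + δ) ≤ 1) ∧
      (∀ q ∈ Q, ∀ q' ∈ Q, q < q' → q * (1 + δ) ≤ q') ∧ Q.card * δ / 14 ≤ 1 := by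
  have hlim : ∀ q : ℝ, Tendsto (fun δ : ℝ => q * (1 + δ)) (𝓝[>] 0) (𝓝 q) := by
    intro q
    have h : Continuous fun δ : ℝ => q * (1 + δ) := by fun_prop
    have := (h.tendsto 0).mono_left (nhdsWithin_le_nhds (s := Ioi (0 : ℝ)))
    simpa using this
  have hlim2 : Tendsto (fun δ : ℝ => Q.card * δ / 14) (𝓝[>] 0) (𝓝 0) := by
    have h : Continuous fun δ : ℝ => Q.card * δ / 14 := by fun_prop
    have := (h.tendsto 0).mono_left (nhdsWithin_le_nhds (s := Ioi (0 : ℝ)))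
    simpa using this
  have hlim3 : Tendsto (fun δ : ℝ => δ) (𝓝[>] 0) (𝓝 0) := nhdsWithin_le_nhds
  have e0 : ∀ᶠ δ : ℝ in 𝓝[>] 0, 0 < δ := self_mem_nhdsWithin
  have e1 : ∀ᶠ δ : ℝ in 𝓝[>] 0, δ ≤ 1 := hlim3.eventually_le_const (by norm_num)
  have e2 : ∀ᶠ δ : ℝ in 𝓝[>] 0, ∀ q ∈ Q, q * (1 + δ) ≤ 1 := by
    rw [Filter.eventually_all_finset]
    intro q hq
    exact (hlim q).eventually_le_const (hQ1 q hq)
  have e3 : ∀ᶠ δ : ℝ in 𝓝[>] 0, ∀ q ∈ Q, ∀ q' ∈ Q, q < q' → q * (1 + δ) ≤ q' := by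
    rw [Filter.eventually_all_finset]
    intro q hq
    rw [Filter.eventually_all_finset]
    intro q' hq'
    by_cases h : q < q'
    · filter_upwards [(hlim q).eventually_le_const h] with δ hδ _
      exact hδ
    · exact Eventually.of_forall fun δ h' => absurd h' h
  have e4 : ∀ᶠ δ : ℝ in 𝓝[>] 0, Q.card * δ / 14 ≤ 1 :=
    hlim2.eventually_le_const (by norm_num)
  obtain ⟨δ, h0, h1, h2, h3, h4⟩ := (e0.and (e1.and (e2.and (e3.and e4)))).exists
  exact ⟨δ, h0, h1, h2, h3, h4⟩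

/-- the numerical estimate for the total length of the deleted intervals -/
lemma numeric {Tc Tt Ac Pc Qc f δ L ε K : ℝ} (hTc0 : 0 ≤ Tc) (hTt0 : 0 ≤ Tt) (hAc : 0 < Ac)
    (hPc : 0 < Pc) (hδ : 0 < δ) (hε : 0 < ε) (h3 : Tc ≤ 10 * Ac) (h4 : Tt * f ≤ L + 1)
    (hL : 0 ≤ L) (hf : f = Qc * δ / 14) (hQc : Qc = Ac * Pc) (hPK : K ≤ Pc)
    (hK : 35840 * (L + 1) < ε * K) : Tc * (Tt * (256 * δ)) ≤ ε := by
  have h5 : Tt * (256 * δ) * (Ac * Pc) = 3584 * (Tt * f) := by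
    rw [hf, hQc]; ring
  have hAP : 0 < Ac * Pc := mul_pos hAc hPc
  have h6 : Tt * (256 * δ) ≤ 3584 * (L + 1) / (Ac * Pc) := by
    rw [le_div_iff₀ hAP, h5]
    linarith
  have h7 : 0 ≤ Tt * (256 * δ) := mul_nonneg hTt0 (by linarith)
  have h8 : Tc * (Tt * (256 * δ)) ≤ (10 * Ac) * (3584 * (L + 1) / (Ac * Pc)) :=
    mul_le_mul h3 h6 h7 (by linarith)
  have h9 : (10 * Ac) * (3584 * (L + 1) / (Ac * Pc)) = 35840 * (L + 1) / Pc := by
    rw [mul_div_assoc', div_eq_div_iff hAP.ne' hPc.ne']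
    ring
  rw [h9] at h8
  refine h8.trans ?_
  rw [div_le_iff₀ hPc]
  have : ε * K ≤ ε * Pc := mul_le_mul_of_nonneg_left hPK hε.le
  linarith

lemma stage (ε η : ℝ) (hε : 0 < ε) (hη : 0 < η) (N : ℕ) :
    ∃ X T U : Set ℝ, MeasurableSet X ∧ MeasurableSet T ∧ X ⊆ Ico 1 2 ∧
      volume.real (Ico (1 : ℝ) 2 \ X) ≤ η ∧ volume T ≤ ENNReal.ofReal ε ∧
      (∀ x ∈ X, ∃ n : ℕ, N ≤ n ∧ 0 < n ∧ (n : ℝ) * x ∈ U) ∧
      (∀ y ∈ Ico (16 : ℝ) 32, ∀ r : ℕ, 0 < r → (r : ℝ) * y ∈ U → y ∈ T) := by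
  classical
  set L : ℝ := max 1 (-Real.log η) with hL
  have hL1 : 1 ≤ L := le_max_left _ _
  have hLη : Real.exp (-L) ≤ η := by
    have h1 : -L ≤ Real.log η := by
      have := le_max_right 1 (-Real.log η)
      rw [← hL] at this
      linarith
    calc Real.exp (-L) ≤ Real.exp (Real.log η) := Real.exp_le_exp.2 h1
      _ = η := Real.exp_log hη
  obtain ⟨K, hK⟩ := exists_nat_gt (35840 * (L + 1) / ε)
  have hK' : 35840 * (L + 1) < ε * K := by
    rw [div_lt_iff₀ hε] at hK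
    linarith
  have hK0 : (0 : ℝ) < K := by
    by_contra hc
    push Not at hc
    have : ε * K ≤ 0 := mul_nonpos_of_nonneg_of_nonpos hε.le hc
    linarith
  have hK1 : 1 ≤ K := by exact_mod_cast hK0
  obtain ⟨Z, A, T0, hNZ, hZ1, hKP, hAne, hA, hT0, hdiv, hinj⟩ := exists_core K N
  have hZpos : (0 : ℝ) < Z := by exact_mod_cast hZ1
  set P := primesIn Z with hP
  have hPne : P.Nonempty := Finset.card_pos.1 (by omega)
  have hPmem : ∀ p ∈ P, Z ≤ p ∧ p < 2 * Z := fun p hp =>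
    Finset.mem_Ico.1 (Finset.mem_filter.1 hp).1
  set Q : Finset ℝ := (A ×ˢ P).image (fun z : ℝ × ℕ => z.1 / (z.2 : ℝ)) with hQdef
  have hQcard : Q.card = A.card * P.card := by
    rw [hQdef, Finset.card_image_of_injOn, Finset.card_product]
    rintro ⟨a, p⟩ h1 ⟨a', p'⟩ h2 h
    rw [Finset.mem_coe, Finset.mem_product] at h1 h2
    obtain ⟨e1, e2⟩ := hinj a h1.1 a' h2.1 p h1.2 p' h2.2 h
    rw [Prod.mk.injEq]
    exact ⟨e1, e2⟩
  have hQrange : ∀ q ∈ Q, 1 / 4 ≤ q ∧ q < 1 := by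
    intro q hq
    obtain ⟨⟨a, p⟩, h1, rfl⟩ := Finset.mem_image.1 hq
    rw [Finset.mem_product] at h1
    obtain ⟨ha1, ha2⟩ := hA a h1.1
    obtain ⟨hp1, hp2⟩ := hPmem p h1.2
    have hp1' : (Z : ℝ) ≤ p := by exact_mod_cast hp1
    have hp2' : (p : ℝ) < 2 * Z := by exact_mod_cast hp2
    have hp0 : (0 : ℝ) < p := by linarith
    constructor
    · change 1 / 4 ≤ a / p
      rw [le_div_iff₀ hp0]
      linarith
    · change a / p < 1
      rw [div_lt_one hp0]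
      linarith
  have hQgt : ∀ q ∈ Q, 1 / 4 < q := by
    intro q hq
    obtain ⟨⟨a, p⟩, h1, rfl⟩ := Finset.mem_image.1 hq
    rw [Finset.mem_product] at h1
    obtain ⟨ha1, ha2⟩ := hA a h1.1
    obtain ⟨hp1, hp2⟩ := hPmem p h1.2
    have hp1' : (Z : ℝ) ≤ p := by exact_mod_cast hp1
    have hp2' : (p : ℝ) < 2 * Z := by exact_mod_cast hp2
    have hp0 : (0 : ℝ) < p := by linarith
    change 1 / 4 < a / p
    rw [lt_div_iff₀ hp0]
    linarith
  obtain ⟨δ, hδ0, hδ1, hδ2, hδ3, hδ4⟩ := exists_delta Q fun q hq => (hQrange q hq).2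
  set f : ℝ := Q.card * δ / 14 with hf
  have hAc : (1 : ℝ) ≤ A.card := by exact_mod_cast hAne.card_pos
  have hPc : (K : ℝ) ≤ P.card := by exact_mod_cast hKP
  have hQc : (Q.card : ℝ) = A.card * P.card := by rw [hQcard]; push_cast; ring
  have hP0 : (0 : ℝ) < P.card := by linarith
  have hA0 : (0 : ℝ) < A.card := by linarith
  have hQ0 : (0 : ℝ) < Q.card := by rw [hQc]; positivity
  have hf0 : 0 < f := by rw [hf]; positivity
  obtain ⟨Θ, hΘc, hΘ, hΘv⟩ := greedy Q δ hδ0 hδ1 hQgt hδ2 hδ3 hδ4 ⌈L / f⌉₊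
  rw [← hf] at hΘv
  have hQmem : ∀ q ∈ Q, ∃ a ∈ A, ∃ p ∈ P, q = a / (p : ℝ) := by
    intro q hq
    obtain ⟨⟨a, p⟩, h1, rfl⟩ := Finset.mem_image.1 hq
    rw [Finset.mem_product] at h1
    exact ⟨a, h1.1, p, h1.2, rfl⟩
  clear_value L f Q P
  refine ⟨Ico 1 2 ∩ ⋃ θ ∈ Θ, SS Q δ θ,
    ⋃ b ∈ T0.filter (fun b => 0 < b ∧ b < 32), ⋃ θ ∈ Θ, Ico (b * θ) (b * θ * (1 + δ)),
    ⋃ a ∈ A, ⋃ θ ∈ Θ, Ico (a * θ) (a * θ * (1 + δ)), ?_, ?_, ?_, ?_, ?_, ?_, ?_⟩
  · exact measurableSet_Ico.inter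
      (Finset.measurableSet_biUnion _ fun θ _ => measurableSet_SS Q δ θ)
  · exact Finset.measurableSet_biUnion _ fun b _ =>
      Finset.measurableSet_biUnion _ fun θ _ => measurableSet_Ico
  · exact inter_subset_left
  · rw [Set.sdiff_self_inter]
    refine hΘv.trans ?_
    have h1 : 1 - f ≤ Real.exp (-f) := by
      have := Real.add_one_le_exp (-f)
      linarith
    have h2 : L ≤ (⌈L / f⌉₊ : ℝ) * f := by
      have := Nat.le_ceil (L / f)
      rwa [div_le_iff₀ hf0] at this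
    calc (1 - f) ^ ⌈L / f⌉₊ ≤ (Real.exp (-f)) ^ ⌈L / f⌉₊ :=
          pow_le_pow_left₀ (by linarith) h1 _
      _ = Real.exp (-(⌈L / f⌉₊ * f)) := by
          rw [← Real.exp_nat_mul]
          ring_nf
      _ ≤ Real.exp (-L) := Real.exp_le_exp.2 (by linarith)
      _ ≤ η := hLη
  · have h1 : ∀ b ∈ T0.filter (fun b => 0 < b ∧ b < 32), ∀ θ ∈ Θ,
        volume (Ico (b * θ) (b * θ * (1 + δ))) ≤ ENNReal.ofReal (256 * δ) := by
      intro b hb θ hθ
      rw [Real.volume_Ico]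
      apply ENNReal.ofReal_le_ofReal
      obtain ⟨-, hb1, hb2⟩ := Finset.mem_filter.1 hb
      obtain ⟨ht1, ht2⟩ := hΘ θ hθ
      have h3 : b * θ ≤ 32 * 8 := mul_le_mul hb2.le ht2.le (by linarith) (by norm_num)
      have : b * θ * (1 + δ) - b * θ = (b * θ) * δ := by ring
      rw [this]
      calc b * θ * δ ≤ 32 * 8 * δ := mul_le_mul_of_nonneg_right h3 hδ0.le
        _ = 256 * δ := by ring
    have h2 : volume (⋃ b ∈ T0.filter (fun b => 0 < b ∧ b < 32), ⋃ θ ∈ Θ,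
        Ico (b * θ) (b * θ * (1 + δ))) ≤
        ((T0.filter (fun b => 0 < b ∧ b < 32)).card : ℝ≥0∞) *
          ((Θ.card : ℝ≥0∞) * ENNReal.ofReal (256 * δ)) := by
      refine (measure_biUnion_finset_le _ _).trans ?_
      rw [← nsmul_eq_mul, ← Finset.sum_const]
      refine Finset.sum_le_sum fun b hb => ?_
      refine (measure_biUnion_finset_le _ _).trans ?_
      rw [← nsmul_eq_mul, ← Finset.sum_const]
      exact Finset.sum_le_sum fun θ hθ => h1 b hb θ hθ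
    refine h2.trans ?_
    have h3 : ((T0.filter (fun b => 0 < b ∧ b < 32)).card : ℝ) ≤ 10 * A.card := by
      have : (T0.filter (fun b => 0 < b ∧ b < 32)).card ≤ 10 * A.card :=
        (Finset.card_filter_le _ _).trans hT0
      exact_mod_cast this
    have h4 : (Θ.card : ℝ) * f ≤ L + 1 := by
      have h5 : (Θ.card : ℝ) ≤ ⌈L / f⌉₊ := by exact_mod_cast hΘc
      have h6 : (⌈L / f⌉₊ : ℝ) < L / f + 1 :=
        Nat.ceil_lt_add_one (div_nonneg (by linarith) hf0.le)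
      calc (Θ.card : ℝ) * f ≤ (L / f + 1) * f :=
            mul_le_mul_of_nonneg_right (h5.trans h6.le) hf0.le
        _ = L + f := by rw [add_mul, div_mul_cancel₀ _ hf0.ne', one_mul]
        _ ≤ L + 1 := by linarith
    have h256 : 0 ≤ 256 * δ := by linarith
    rw [← ENNReal.ofReal_natCast, ← ENNReal.ofReal_natCast,
      ← ENNReal.ofReal_mul (Nat.cast_nonneg _), ← ENNReal.ofReal_mul (Nat.cast_nonneg _)]
    apply ENNReal.ofReal_le_ofReal
    exact numeric (Nat.cast_nonneg _) (Nat.cast_nonneg _) hA0 hP0 hδ0 hε h3 h4 (by linarith)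
      hf hQc hPc hK'
  · rintro x ⟨hx1, hx2⟩
    rw [Set.mem_iUnion₂] at hx2
    obtain ⟨θ, hθ, hx3⟩ := hx2
    unfold SS at hx3
    rw [Set.mem_iUnion₂] at hx3
    obtain ⟨q, hq, hx4, hx5⟩ := hx3
    obtain ⟨a, haA, p, hpP, rfl⟩ := hQmem q hq
    obtain ⟨hp1, hp2⟩ := hPmem p hpP
    have hp0 : (0 : ℝ) < p := by
      have : (Z : ℝ) ≤ p := by exact_mod_cast hp1
      linarith
    refine ⟨p, hNZ.trans hp1, by omega, ?_⟩
    rw [Set.mem_iUnion₂]
    refine ⟨a, haA, ?_⟩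
    rw [Set.mem_iUnion₂]
    refine ⟨θ, hθ, ?_, ?_⟩
    · change θ * (a / p) ≤ x at hx4
      have : θ * (a / p) * p = a * θ := by field_simp
      nlinarith
    · change x < θ * (a / p) * (1 + δ) at hx5
      have h2 : θ * (a / p) * (1 + δ) * p = a * θ * (1 + δ) := by field_simp
      nlinarith
  · rintro y ⟨hy1, hy2⟩ r hr hyU
    rw [Set.mem_iUnion₂] at hyU
    obtain ⟨a, ha, hyU⟩ := hyU
    rw [Set.mem_iUnion₂] at hyU
    obtain ⟨θ, hθ, h1, h2⟩ := hyU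
    obtain ⟨ha1, ha2⟩ := hA a ha
    obtain ⟨ht1, ht2⟩ := hΘ θ hθ
    have hr0 : (0 : ℝ) < r := by exact_mod_cast hr
    have ha0 : 0 < a := by linarith
    have hθ0 : 0 < θ := by linarith
    have hw : θ * (1 + δ) < 16 := by nlinarith
    have hw0 : 0 < θ * (1 + δ) := by positivity
    have hrZ : r < Z := by
      have h3 : (r : ℝ) * 16 ≤ r * y := mul_le_mul_of_nonneg_left hy1 hr0.le
      have h4 : a * θ * (1 + δ) < Z * 16 := by
        calc a * θ * (1 + δ) = a * (θ * (1 + δ)) := by ring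
          _ < Z * 16 := mul_lt_mul ha2 hw.le hw0 hZpos.le
      have h5 : (r : ℝ) * 16 < Z * 16 := by linarith
      have h6 : (r : ℝ) < Z := by linarith
      exact_mod_cast h6
    have hle : a / r * θ ≤ y := by
      have : a / r * θ = a * θ / r := by ring
      rw [this, div_le_iff₀ hr0]
      linarith
    have hlt : y < a / r * θ * (1 + δ) := by
      have : a / r * θ * (1 + δ) = a * θ * (1 + δ) / r := by ring
      rw [this, lt_div_iff₀ hr0]
      linarith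
    have har0 : 0 < a / r := by positivity
    have hgt1 : 1 < a / r := by
      by_contra hc
      push Not at hc
      have : a / r * (θ * (1 + δ)) ≤ 1 * (θ * (1 + δ)) :=
        mul_le_mul_of_nonneg_right hc hw0.le
      nlinarith
    have hlt32 : a / r < 32 := by
      have : a / r * 1 ≤ a / r * θ := mul_le_mul_of_nonneg_left ht1 har0.le
      linarith
    rw [Set.mem_iUnion₂]
    refine ⟨a / r, Finset.mem_filter.2 ⟨hdiv a ha r hr hrZ hgt1 hlt32, har0, hlt32⟩, ?_⟩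
    rw [Set.mem_iUnion₂]
    exact ⟨θ, hθ, hle, hlt⟩

end Pool.Agent.H11R3.Haight
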